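import Pool.Agent.Lib.MP_4322ef_al.SR.Defs

section

/-! Sums over orthonormal bases. -/

set_option autoImplicit false

open scoped InnerProductSpace

namespace Pool.Agent.Lib.MP_4322ef_al.SR

section
variable {g : Type} [NormedAddCommGroup g] [InnerProductSpace ℝ g]
  {M : Type} [AddCommGroup M] [Module ℝ M] {ι : Type} [Fintype ι] {κ : Type} [Fintype κ]

/-- change of the orthonormal basis with two operators -/
theorem frame_mul (e : OrthonormalBasis ι ℝ g) (β : g →ₗ[ℝ] g →ₗ[ℝ] M) (P Q Q' : g →ₗ[ℝ] g)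
    (hQ : ∀ A B, ⟪Q A, B⟫_ℝ = ⟪A, Q' B⟫_ℝ) :
    ∑ i, β (P (e i)) (Q (e i)) = ∑ i, β (P (Q' (e i))) (e i) := by
  have h1 : ∀ i, β (P (e i)) (Q (e i)) = ∑ j, ⟪e j, Q (e i)⟫_ℝ • β (P (e i)) (e j) := by
    intro i
    conv_lhs => rw [← e.sum_repr' (Q (e i))]
    simp only [map_sum, map_smul]
  have h2 : ∀ i, β (P (Q' (e i))) (e i) = ∑ j, ⟪e j, Q' (e i)⟫_ℝ • β (P (e j)) (e i) := by
    intro i
    conv_lhs => rw [← e.sum_repr' (Q' (e i))]
    simp only [map_sum, map_smul, LinearMap.sum_apply, LinearMap.smul_apply]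
  simp only [h1, h2]
  rw [Finset.sum_comm]
  refine Finset.sum_congr rfl fun i _ => Finset.sum_congr rfl fun j _ => ?_
  rw [← hQ, real_inner_comm]

theorem frame_left (f : OrthonormalBasis κ ℝ g) (β : g →ₗ[ℝ] g →ₗ[ℝ] M) (A B : g) :
    β A B = ∑ j, ⟪f j, A⟫_ℝ • β (f j) B := by
  conv_lhs => rw [← f.sum_repr' A]
  simp only [map_sum, map_smul, LinearMap.sum_apply, LinearMap.smul_apply]

theorem frame_right (f : OrthonormalBasis κ ℝ g) (β : g →ₗ[ℝ] g →ₗ[ℝ] M) (A B : g) :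
    β A B = ∑ j, ⟪f j, B⟫_ℝ • β A (f j) := by
  conv_lhs => rw [← f.sum_repr' B]
  simp only [map_sum, map_smul]

theorem frame_indep (e : OrthonormalBasis ι ℝ g) (f : OrthonormalBasis κ ℝ g)
    (β : g →ₗ[ℝ] g →ₗ[ℝ] M) : ∑ i, β (e i) (e i) = ∑ j, β (f j) (f j) := by
  have h1 : ∀ i, β (e i) (e i) = ∑ j, ⟪f j, e i⟫_ℝ • β (f j) (e i) :=
    fun i => frame_left f β (e i) (e i)
  have h2 : ∀ j, β (f j) (f j) = ∑ i, ⟪e i, f j⟫_ℝ • β (f j) (e i) :=
    fun j => frame_right e β (f j) (f j)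
  simp only [h1, h2]
  rw [Finset.sum_comm]
  refine Finset.sum_congr rfl fun i _ => Finset.sum_congr rfl fun j _ => ?_
  rw [real_inner_comm]

theorem frame_skew (e : OrthonormalBasis ι ℝ g) (β : g →ₗ[ℝ] g →ₗ[ℝ] M) (S : g →ₗ[ℝ] g)
    (hS : ∀ A B, ⟪S A, B⟫_ℝ = -⟪A, S B⟫_ℝ) :
    ∑ i, (β (S (e i)) (e i) + β (e i) (S (e i))) = 0 := by
  rw [Finset.sum_add_distrib]
  have h := frame_mul e β LinearMap.id S (-S) (by
    intro A B
    rw [hS, LinearMap.neg_apply, inner_neg_right])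
  simp only [LinearMap.id_apply, LinearMap.neg_apply, map_neg, Finset.sum_neg_distrib] at h
  rw [h]
  abel

/-- the sum over an orthonormal basis of the range of a symmetric projection -/
theorem frame_sub (e : OrthonormalBasis ι ℝ g) (K : Submodule ℝ g) (f : OrthonormalBasis κ ℝ K)
    (β : g →ₗ[ℝ] g →ₗ[ℝ] M) (P : g →ₗ[ℝ] g) (hP : ∀ A, P A ∈ K) (hK : ∀ A ∈ K, P A = A)
    (hs : ∀ A B, ⟪P A, B⟫_ℝ = ⟪A, P B⟫_ℝ) :
    ∑ j, β (f j) (f j) = ∑ i, β (P (e i)) (P (e i)) := by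
  have h0 : ∀ i, P (e i) = ∑ j, ⟪(f j : g), e i⟫_ℝ • (f j : g) := by
    intro i
    have h := congrArg (Submodule.subtype K) (f.sum_repr' ⟨P (e i), hP _⟩)
    rw [map_sum] at h
    have h' : ∑ x, K.subtype (⟪f x, ⟨P (e i), hP _⟩⟫_ℝ • f x) = P (e i) := h
    rw [← h']
    refine Finset.sum_congr rfl fun j _ => ?_
    rw [map_smul, Submodule.subtype_apply, Submodule.coe_inner]
    show ⟪(f j : g), P (e i)⟫_ℝ • _ = _
    rw [← hs, hK _ (f j).2]
  rw [frame_mul e β P P P hs]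
  have h1 : ∀ i, β (P (P (e i))) (e i) = ∑ j, ⟪(f j : g), e i⟫_ℝ • β (f j) (e i) := by
    intro i
    rw [hK _ (hP _), h0 i]
    simp only [map_sum, map_smul, LinearMap.sum_apply, LinearMap.smul_apply]
  simp only [h1]
  rw [Finset.sum_comm]
  refine Finset.sum_congr rfl fun j _ => ?_
  have h2 : β (f j) (∑ i, ⟪e i, (f j : g)⟫_ℝ • e i) = β (f j) (f j) := by
    rw [e.sum_repr' (f j : g)]
  rw [← h2]
  simp only [map_sum, map_smul]
  refine Finset.sum_congr rfl fun i _ => ?_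
  rw [real_inner_comm]

end

end Pool.Agent.Lib.MP_4322ef_al.SR
end

section

/-! The eigenvectors of the regular element and the evaluation of the split Casimir operator. -/

set_option autoImplicit false

open scoped InnerProductSpace

namespace Pool.Agent.Lib.MP_4322ef_al.SR

section
variable {g : Type} [NormedAddCommGroup g] [InnerProductSpace ℝ g] (L : RedLie g)

theorem kk_apply (A : g) : L.kk A = (1 / 2 : ℝ) • (A + L.th A) := rfl

theorem pp_apply (A : g) : L.pp A = (1 / 2 : ℝ) • (A - L.th A) := rfl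

theorem kk_add_pp (A : g) : L.kk A + L.pp A = A := by
  rw [kk_apply, pp_apply, ← smul_add]
  have : A + L.th A + (A - L.th A) = (2 : ℝ) • A := by
    rw [two_smul]
    abel
  rw [this, smul_smul]
  norm_num

theorem th_kk (A : g) : L.th (L.kk A) = L.kk A := by
  rw [kk_apply, map_smul, map_add, L.th_th, add_comm]

theorem th_pp (A : g) : L.th (L.pp A) = -L.pp A := by
  rw [pp_apply, map_smul, map_sub, L.th_th, ← smul_neg, neg_sub]

theorem kk_of_k {A : g} (h : L.th A = A) : L.kk A = A := by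
  rw [kk_apply, h, ← two_smul ℝ A, smul_smul]
  norm_num

theorem pp_of_k {A : g} (h : L.th A = A) : L.pp A = 0 := by
  rw [pp_apply, h, sub_self, smul_zero]

theorem kk_of_p {A : g} (h : L.th A = -A) : L.kk A = 0 := by
  rw [kk_apply, h, add_neg_cancel, smul_zero]

theorem pp_of_p {A : g} (h : L.th A = -A) : L.pp A = A := by
  rw [pp_apply, h, sub_neg_eq_add, ← two_smul ℝ A, smul_smul]
  norm_num

theorem th_symm (A B : g) : ⟪L.th A, B⟫_ℝ = ⟪A, L.th B⟫_ℝ := by
  rw [← L.inner_th (L.th A) B, L.th_th]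

theorem kk_symm (A B : g) : ⟪L.kk A, B⟫_ℝ = ⟪A, L.kk B⟫_ℝ := by
  rw [kk_apply, kk_apply, real_inner_smul_left, real_inner_smul_right, inner_add_left,
    inner_add_right, th_symm]

theorem pp_symm (A B : g) : ⟪L.pp A, B⟫_ℝ = ⟪A, L.pp B⟫_ℝ := by
  rw [pp_apply, pp_apply, real_inner_smul_left, real_inner_smul_right, inner_sub_left,
    inner_sub_right, th_symm]

theorem inner_kp {A B : g} (hA : L.th A = A) (hB : L.th B = -B) : ⟪A, B⟫_ℝ = 0 := by
  have h := th_symm L A B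
  rw [hA, hB, inner_neg_right] at h
  linarith

theorem br_skew (A B : g) : L.br A B = -L.br B A := by
  have h := L.br_self (A + B)
  simp only [map_add, LinearMap.add_apply, L.br_self, zero_add, add_zero] at h
  exact eq_neg_of_add_eq_zero_right h

theorem br_k_skew {Z : g} (hZ : L.th Z = Z) (A B : g) : ⟪L.br Z A, B⟫_ℝ = -⟪A, L.br Z B⟫_ℝ := by
  rw [L.inner_br, hZ]

variable {L}

theorem adH_symm (C : CSub L) : (L.br C.H₀).IsSymmetric := by
  intro A B
  rw [L.inner_br, C.a_p _ C.mem, map_neg, LinearMap.neg_apply, inner_neg_right, neg_neg]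

theorem exists_eigen [FiniteDimensional ℝ g] (C : CSub L) : ∃ (n : ℕ)
    (e : OrthonormalBasis (Fin n) ℝ g) (lam : Fin n → ℝ), ∀ i, L.br C.H₀ (e i) = lam i • e i :=
  ⟨Module.finrank ℝ g, (adH_symm C).eigenvectorBasis rfl, (adH_symm C).eigenvalues rfl,
    fun i => (adH_symm C).apply_eigenvectorBasis rfl i⟩

theorem br_th_eigen (C : CSub L) {A : g} {r : ℝ} (h : L.br C.H₀ A = r • A) :
    L.br C.H₀ (L.th A) = (-r) • L.th A := by
  have h1 := congrArg L.th h
  rw [L.th_br, C.a_p _ C.mem, map_neg, LinearMap.neg_apply, map_smul] at h1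
  rw [neg_smul, ← h1, neg_neg]

theorem mem_n (C : CSub L) {A : g} {r : ℝ} (hr : 0 < r) (h : L.br C.H₀ A = r • A) : A ∈ C.n :=
  Submodule.subset_span ⟨r, hr, h⟩

theorem th_mem_n (C : CSub L) {A : g} {r : ℝ} (hr : r < 0) (h : L.br C.H₀ A = r • A) :
    L.th A ∈ C.n :=
  mem_n C (by linarith : (0 : ℝ) < -r) (br_th_eigen C h)

theorem br_H_kk (C : CSub L) {A : g} (h : L.br C.H₀ A = 0) :
    L.br C.H₀ (L.kk A) = 0 ∧ L.br C.H₀ (L.pp A) = 0 := by
  have h1 : L.br C.H₀ (L.th A) = 0 := by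
    have h2 : L.br C.H₀ A = (0 : ℝ) • A := by rw [h, zero_smul]
    rw [br_th_eigen C h2, neg_zero, zero_smul]
  constructor
  · rw [kk_apply, map_smul, map_add, h, h1, add_zero, smul_zero]
  · rw [pp_apply, map_smul, map_sub, h, h1, sub_zero, smul_zero]

theorem pp_mem_a (C : CSub L) {A : g} (h : L.br C.H₀ A = 0) : L.pp A ∈ C.a :=
  C.a_max _ (th_pp L A) (C.reg _ (br_H_kk C h).2)

/-- the Iwasawa decomposition -/
theorem iwasawa [FiniteDimensional ℝ g] (C : CSub L) (A : g) :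
    ∃ N ∈ C.n, ∃ H ∈ C.a, ∃ Z, L.th Z = Z ∧ A = N + H + Z := by
  obtain ⟨n, e, lam, he⟩ := exists_eigen C
  let S : Submodule ℝ g := C.n ⊔ C.a ⊔ LinearMap.ker (L.th - LinearMap.id)
  have hk : ∀ Z, L.th Z = Z → Z ∈ S := by
    intro Z hZ
    apply Submodule.mem_sup_right
    rw [LinearMap.mem_ker, LinearMap.sub_apply, hZ, LinearMap.id_apply, sub_self]
  have hn : ∀ Z ∈ C.n, Z ∈ S := fun Z hZ => Submodule.mem_sup_left (Submodule.mem_sup_left hZ)
  have ha : ∀ Z ∈ C.a, Z ∈ S := fun Z hZ => Submodule.mem_sup_left (Submodule.mem_sup_right hZ)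
  have h1 : ∀ i, e i ∈ S := by
    intro i
    rcases lt_trichotomy (lam i) 0 with h | h | h
    · have h2 : e i = -L.th (e i) + (e i + L.th (e i)) := by abel
      rw [h2]
      refine S.add_mem (S.neg_mem (hn _ (th_mem_n C h (he i)))) (hk _ ?_)
      rw [map_add, L.th_th, add_comm]
    · have h2 : L.br C.H₀ (e i) = 0 := by rw [he i, h, zero_smul]
      rw [← kk_add_pp L (e i)]
      exact S.add_mem (hk _ (th_kk L _)) (ha _ (pp_mem_a C h2))
    · exact hn _ (mem_n C h (he i))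
  have h3 : A ∈ S := by
    rw [← e.sum_repr' A]
    exact S.sum_mem fun i _ => S.smul_mem _ (h1 i)
  obtain ⟨x, hx, Z, hZ, rfl⟩ := Submodule.mem_sup.1 h3
  obtain ⟨N, hN, H, hH, rfl⟩ := Submodule.mem_sup.1 hx
  refine ⟨N, hN, H, hH, Z, ?_, rfl⟩
  rw [LinearMap.mem_ker, LinearMap.sub_apply, LinearMap.id_apply, sub_eq_zero] at hZ
  exact hZ

/-- the split Casimir operator on a functional killed by `n₀` -/
theorem eval_split [FiniteDimensional ℝ g] (C : CSub L) {h : g} (hh : h ∈ C.a)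
    (β : g →ₗ[ℝ] g →ₗ[ℝ] ℂ) (γ : g →ₗ[ℝ] ℂ) (h1 : ∀ A ∈ C.n, ∀ B, β A B = 0)
    (h2 : ∀ A B, L.th B ∈ C.n → β A B = 0)
    (h3 : ∀ A Z, L.th Z = Z → L.br C.H₀ Z = 0 → β A Z = 0)
    (h4 : ∀ A, ∀ H ∈ C.a, β A H = -(⟪h, H⟫_ℝ : ℂ) * γ A) {ι : Type} [Fintype ι]
    (f : OrthonormalBasis ι ℝ g) : ∑ i, β (f i) (f i) = -γ h := by
  obtain ⟨n, e, lam, he⟩ := exists_eigen C
  rw [frame_indep f e β]
  have h5 : ∀ i, lam i ≠ 0 → ⟪e i, h⟫_ℝ = 0 := by
    intro i hi
    have h6 := adH_symm C (e i) h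
    rw [he i, C.a_comm _ C.mem _ hh, inner_zero_right, real_inner_smul_left] at h6
    exact (mul_eq_zero.1 h6).resolve_left hi
  have h7 : ∀ i, β (e i) (e i) = -(⟪e i, h⟫_ℝ • γ (e i)) := by
    intro i
    rcases lt_trichotomy (lam i) 0 with hl | hl | hl
    · rw [h2 _ _ (th_mem_n C hl (he i)), h5 i hl.ne, zero_smul, neg_zero]
    · have h8 : L.br C.H₀ (e i) = 0 := by rw [he i, hl, zero_smul]
      have h9 : β (e i) (e i) = β (e i) (L.kk (e i)) + β (e i) (L.pp (e i)) := by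
        rw [← map_add, kk_add_pp]
      rw [h9, h3 _ _ (th_kk L _) (br_H_kk C h8).1, h4 _ _ (pp_mem_a C h8), zero_add]
      have h10 : ⟪h, L.pp (e i)⟫_ℝ = ⟪e i, h⟫_ℝ := by
        rw [← pp_symm, pp_of_p L (C.a_p _ hh), real_inner_comm]
      rw [h10, neg_mul, Complex.real_smul]
    · rw [h1 _ (mem_n C hl (he i)), h5 i hl.ne', zero_smul, neg_zero]
  simp only [h7, Finset.sum_neg_distrib]
  conv_rhs => rw [← e.sum_repr' h]
  simp only [map_sum, map_smul]

end

end Pool.Agent.Lib.MP_4322ef_al.SR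
end

section

/-! `k₀`-types, invariant Hermitian forms on finite dimensional `k₀`-stable subspaces, Casimir. -/

set_option autoImplicit false

open scoped InnerProductSpace

namespace Pool.Agent.Lib.MP_4322ef_al.SR

section
variable {g : Type} [NormedAddCommGroup g] [InnerProductSpace ℝ g] {L : RedLie g}
  {X : Type} [NormedAddCommGroup X] [InnerProductSpace ℂ X] (ρ : HC L X)

/-- stable under `k₀` -/
def KSub (U : Submodule ℂ X) : Prop := ∀ Z, L.th Z = Z → ∀ u ∈ U, ρ.op Z u ∈ U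

theorem exists_ktype (U : Submodule ℂ X) (hU : FiniteDimensional ℂ U) (hne : U ≠ ⊥)
    (hs : KSub ρ U) : ∃ V ≤ U, KType ρ V := by
  have key : ∀ n : ℕ, ∀ U : Submodule ℂ X, FiniteDimensional ℂ U → U ≠ ⊥ → KSub ρ U →
      Module.finrank ℂ U ≤ n → ∃ V ≤ U, KType ρ V := by
    intro n
    induction n with
    | zero =>
      intro U hU hne _ hn
      exact absurd (Submodule.finrank_eq_zero.1 (Nat.le_zero.1 hn)) hne
    | succ n ih =>
      intro U hU hne hs hn
      by_cases h : ∃ U' ≤ U, KSub ρ U' ∧ U' ≠ ⊥ ∧ U' ≠ U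
      · obtain ⟨U', hle, hs', hb, hne'⟩ := h
        have hlt : Module.finrank ℂ U' < Module.finrank ℂ U :=
          Submodule.finrank_lt_finrank_of_lt (lt_of_le_of_ne hle hne')
        obtain ⟨V, hV, hV'⟩ := ih U' (Submodule.finiteDimensional_of_le hle) hb hs' (by omega)
        exact ⟨V, hV.trans hle, hV'⟩
      · push Not at h
        refine ⟨U, le_rfl, hU, hne, hs, fun U' hU' hs' => ?_⟩
        by_cases hb : U' = ⊥
        · exact Or.inl hb
        · exact Or.inr (h U' hU' hs' hb)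
  exact key _ U hU hne hs le_rfl

/-- a `k₀`-invariant Hermitian form on a finite dimensional subspace which is negative somewhere is
negative definite on some `k₀`-type -/
theorem neg_type (W : Submodule ℂ X) (hW : FiniteDimensional ℂ W) (hs : KSub ρ W)
    (Q : X →ₗ⋆[ℂ] X →ₗ[ℂ] ℂ) (hQ : ∀ x ∈ W, ∀ y ∈ W, Q y x = star (Q x y))
    (hk : ∀ Z, L.th Z = Z → ∀ x ∈ W, ∀ y ∈ W, Q (ρ.op Z x) y = -Q x (ρ.op Z y))
    (hx : ∃ x ∈ W, (Q x x).re < 0) :
    ∃ V ≤ W, KType ρ V ∧ ∀ v ∈ V, v ≠ 0 → (Q v v).re < 0 := by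
  let b := stdOrthonormalBasis ℂ W
  let D : X →ₗ[ℂ] X := ∑ i, (Q (b i : X)).smulRight (b i : X)
  have hD : ∀ y, D y = ∑ i, Q (b i : X) y • (b i : X) := by
    intro y
    simp only [D, LinearMap.sum_apply, LinearMap.smulRight_apply]
  have hDW : ∀ y, D y ∈ W := by
    intro y
    rw [hD]
    exact W.sum_mem fun i _ => W.smul_mem _ (b i).2
  have hin : ∀ x ∈ W, ∀ y, ⟪x, D y⟫_ℂ = Q x y := by
    intro x hx y
    have h1 : ∑ i, ⟪(b i : X), x⟫_ℂ • (b i : X) = x := by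
      have h := congrArg (Submodule.subtype W) (b.sum_repr' ⟨x, hx⟩)
      rw [map_sum] at h
      exact h
    rw [hD, inner_sum]
    conv_rhs => rw [← h1]
    rw [map_sum, LinearMap.sum_apply]
    refine Finset.sum_congr rfl fun i _ => ?_
    rw [inner_smul_right, LinearMap.map_smulₛₗ, LinearMap.smul_apply, smul_eq_mul,
      inner_conj_symm, mul_comm]
  have hsym : ∀ x ∈ W, ∀ y ∈ W, ⟪D x, y⟫_ℂ = ⟪x, D y⟫_ℂ := by
    intro x hx y hy
    rw [← inner_conj_symm, hin y hy x, hin x hx y, hQ y hy x hx]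
    rfl
  have hcomm : ∀ Z, L.th Z = Z → ∀ y ∈ W, D (ρ.op Z y) = ρ.op Z (D y) := by
    intro Z hZ y hy
    have h1 : D (ρ.op Z y) - ρ.op Z (D y) ∈ W := W.sub_mem (hDW _) (hs Z hZ _ (hDW _))
    have h2 : ∀ x ∈ W, ⟪x, D (ρ.op Z y) - ρ.op Z (D y)⟫_ℂ = 0 := by
      intro x hx
      rw [inner_sub_right, hin x hx, ← neg_eq_iff_eq_neg.2 (ρ.skew Z hZ x (D y)),
        hin _ (hs Z hZ x hx), hk Z hZ x hx y hy]
      ring
    have h3 := h2 _ h1
    rw [inner_self_eq_zero] at h3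
    exact sub_eq_zero.1 h3
  let DW : W →ₗ[ℂ] W := D.restrict fun x _ => hDW x
  have hDWs : DW.IsSymmetric := by
    intro x y
    exact hsym x x.2 y y.2
  let e := hDWs.eigenvectorBasis rfl
  let lam := hDWs.eigenvalues rfl
  have he : ∀ i, DW (e i) = (lam i : ℂ) • e i := fun i => hDWs.apply_eigenvectorBasis rfl i
  obtain ⟨x, hxW, hxneg⟩ := hx
  have hneg : ∃ i, lam i < 0 := by
    by_contra hcon
    push Not at hcon
    have h1 : Q x x = ⟪(⟨x, hxW⟩ : W), DW ⟨x, hxW⟩⟫_ℂ := (hin x hxW x).symm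
    have h2 : DW ⟨x, hxW⟩ = ∑ i, (⟪e i, (⟨x, hxW⟩ : W)⟫_ℂ * lam i) • e i := by
      conv_lhs => rw [← e.sum_repr' ⟨x, hxW⟩]
      rw [map_sum]
      refine Finset.sum_congr rfl fun i _ => ?_
      rw [map_smul, he, smul_smul]
    rw [h1, h2, inner_sum, Complex.re_sum] at hxneg
    refine absurd hxneg (not_lt.2 (Finset.sum_nonneg fun i _ => ?_))
    rw [inner_smul_right, mul_right_comm]
    have h3 : ⟪e i, (⟨x, hxW⟩ : W)⟫_ℂ * ⟪(⟨x, hxW⟩ : W), e i⟫_ℂ
        = ((‖⟪e i, (⟨x, hxW⟩ : W)⟫_ℂ‖ ^ 2 : ℝ) : ℂ) := by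
      rw [← inner_conj_symm (⟨x, hxW⟩ : W) (e i), Complex.mul_conj, Complex.normSq_eq_norm_sq]
    rw [h3, ← Complex.ofReal_mul, Complex.ofReal_re]
    exact mul_nonneg (sq_nonneg _) (hcon i)
  obtain ⟨i, hi⟩ := hneg
  let U : Submodule ℂ X := W ⊓ LinearMap.ker (D - (lam i : ℂ) • LinearMap.id)
  have hU : ∀ u, u ∈ U ↔ u ∈ W ∧ D u = (lam i : ℂ) • u := by
    intro u
    rw [Submodule.mem_inf, LinearMap.mem_ker, LinearMap.sub_apply, LinearMap.smul_apply,
      LinearMap.id_apply, sub_eq_zero]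
  have hUfin : FiniteDimensional ℂ U := Submodule.finiteDimensional_of_le inf_le_left
  have hUne : U ≠ ⊥ := by
    intro hbot
    have h1 : (e i : X) ∈ U := (hU _).2 ⟨(e i).2, congrArg (Submodule.subtype W) (he i)⟩
    rw [hbot, Submodule.mem_bot] at h1
    have h2 := e.orthonormal.1 i
    rw [Submodule.coe_norm, h1, norm_zero] at h2
    exact zero_ne_one h2
  have hUs : KSub ρ U := by
    intro Z hZ u hu
    rw [hU] at hu ⊢
    exact ⟨hs Z hZ u hu.1, by rw [hcomm Z hZ u hu.1, hu.2, map_smul]⟩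
  obtain ⟨V, hVU, hV⟩ := exists_ktype ρ U hUfin hUne hUs
  refine ⟨V, hVU.trans inf_le_left, hV, fun v hv hv0 => ?_⟩
  obtain ⟨h1, h2⟩ := (hU v).1 (hVU hv)
  rw [← hin v h1 v, h2, inner_smul_right, inner_self_eq_norm_sq_to_K]
  have h3 : ((lam i : ℂ) * ((‖v‖ : ℝ) : ℂ) ^ 2).re = lam i * ‖v‖ ^ 2 := by
    rw [← Complex.ofReal_pow, ← Complex.ofReal_mul, Complex.ofReal_re]
  refine lt_of_eq_of_lt h3 ?_
  exact mul_neg_of_neg_of_pos hi (pow_pos (norm_pos_iff.2 hv0) 2)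

end

end Pool.Agent.Lib.MP_4322ef_al.SR
end

section

/-! The Casimir operator of `k₀`. -/

set_option autoImplicit false

open scoped InnerProductSpace

namespace Pool.Agent.Lib.MP_4322ef_al.SR

section
variable {g : Type} [NormedAddCommGroup g] [InnerProductSpace ℝ g] {L : RedLie g}

theorem Rep.zero' {X : Type} [AddCommGroup X] [Module ℂ X] (ρ : Rep L X) : ρ.op 0 = 0 := by
  have h := ρ.smul 0 0
  rw [zero_smul, Complex.ofReal_zero, zero_smul] at h
  exact h

theorem Rep.neg' {X : Type} [AddCommGroup X] [Module ℂ X] (ρ : Rep L X) (A : g) :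
    ρ.op (-A) = -ρ.op A := by
  have h := ρ.smul (-1) A
  rw [neg_one_smul, Complex.ofReal_neg, Complex.ofReal_one, neg_one_smul] at h
  exact h

/-- `(A, B) ↦ F (op (P A) (G (op' (Q B) y)))` as a real bilinear map -/
noncomputable def bil {X Y M : Type} [AddCommGroup X] [Module ℂ X] [AddCommGroup Y] [Module ℂ Y]
    [AddCommGroup M] [Module ℂ M]
    (ρ : Rep L X) (σ : Rep L Y) (F : X →ₗ[ℂ] M) (G : Y →ₗ[ℂ] X) (P Q : g →ₗ[ℝ] g) (y : Y) :
    g →ₗ[ℝ] g →ₗ[ℝ] M :=
  LinearMap.mk₂ ℝ (fun A B => F (ρ.op (P A) (G (σ.op (Q B) y))))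
    (by
      intro A A' B
      rw [map_add, ρ.add, LinearMap.add_apply, map_add])
    (by
      intro r A B
      rw [map_smul, ρ.smul, LinearMap.smul_apply, map_smul, Complex.coe_smul])
    (by
      intro A B B'
      rw [map_add, σ.add, LinearMap.add_apply, map_add, map_add, map_add])
    (by
      intro r A B
      rw [map_smul, σ.smul, LinearMap.smul_apply, map_smul, map_smul, map_smul, Complex.coe_smul])

theorem bil_apply {X Y M : Type} [AddCommGroup X] [Module ℂ X] [AddCommGroup Y] [Module ℂ Y]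
    [AddCommGroup M] [Module ℂ M]
    (ρ : Rep L X) (σ : Rep L Y) (F : X →ₗ[ℂ] M) (G : Y →ₗ[ℂ] X) (P Q : g →ₗ[ℝ] g) (y : Y)
    (A B : g) : bil ρ σ F G P Q y A B = F (ρ.op (P A) (G (σ.op (Q B) y))) := rfl

theorem kk_br {Z : g} (hZ : L.th Z = Z) (A : g) : L.kk (L.br Z A) = L.br Z (L.kk A) := by
  rw [kk_apply, kk_apply, L.th_br, hZ, ← map_add, ← map_smul]

variable {X : Type} [NormedAddCommGroup X] [InnerProductSpace ℂ X] (ρ : HC L X)
  [FiniteDimensional ℝ g]

theorem casimir_eq {ι : Type} [Fintype ι] (e : OrthonormalBasis ι ℝ g) (x : X) :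
    casimir ρ x = -∑ i, ρ.op (L.kk (e i)) (ρ.op (L.kk (e i)) x) := by
  have h := frame_indep e (stdOrthonormalBasis ℝ g)
    (bil ρ.toRep ρ.toRep LinearMap.id LinearMap.id L.kk L.kk x)
  simp only [bil_apply, LinearMap.id_apply] at h
  rw [casimir, h]

/-- the Casimir operator by an orthonormal basis of `k₀` -/
theorem casimir_eq_k {ι : Type} [Fintype ι]
    (f : OrthonormalBasis ι ℝ (LinearMap.ker (L.th - LinearMap.id) : Submodule ℝ g)) (x : X) :
    casimir ρ x = -∑ i, ρ.op (f i : g) (ρ.op (f i : g) x) := by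
  have h := frame_sub (stdOrthonormalBasis ℝ g) (LinearMap.ker (L.th - LinearMap.id)) f
    (bil ρ.toRep ρ.toRep LinearMap.id LinearMap.id LinearMap.id LinearMap.id x) L.kk
    (fun A => by
      rw [LinearMap.mem_ker, LinearMap.sub_apply, th_kk, LinearMap.id_apply, sub_self])
    (fun A hA => by
      rw [LinearMap.mem_ker, LinearMap.sub_apply, LinearMap.id_apply, sub_eq_zero] at hA
      exact kk_of_k L hA)
    (kk_symm L)
  simp only [bil_apply, LinearMap.id_apply] at h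
  rw [casimir, h]

/-- the Casimir operator as a linear map -/
noncomputable def casL : X →ₗ[ℂ] X :=
  -∑ i, (ρ.op (L.kk (stdOrthonormalBasis ℝ g i))) ∘ₗ (ρ.op (L.kk (stdOrthonormalBasis ℝ g i)))

theorem casL_apply (x : X) : casL ρ x = casimir ρ x := by
  rw [casimir_eq ρ (stdOrthonormalBasis ℝ g), casL, LinearMap.neg_apply, LinearMap.sum_apply]
  rfl

theorem casimir_comm {Z : g} (hZ : L.th Z = Z) (x : X) :
    casimir ρ (ρ.op Z x) = ρ.op Z (casimir ρ x) := by
  let e := stdOrthonormalBasis ℝ g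
  have h := frame_skew e (bil ρ.toRep ρ.toRep LinearMap.id LinearMap.id L.kk L.kk x) (L.br Z)
    (br_k_skew L hZ)
  simp only [bil_apply, LinearMap.id_apply] at h
  rw [casimir_eq ρ e, casimir_eq ρ e, map_neg, map_sum, neg_inj, ← sub_eq_zero,
    ← Finset.sum_sub_distrib, ← neg_eq_zero, ← Finset.sum_neg_distrib, ← h]
  refine Finset.sum_congr rfl fun i _ => ?_
  rw [kk_br hZ, ρ.bracket, ρ.bracket, map_sub]
  abel

theorem casimir_symm (x y : X) : ⟪casimir ρ x, y⟫_ℂ = ⟪x, casimir ρ y⟫_ℂ := by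
  let e := stdOrthonormalBasis ℝ g
  rw [casimir_eq ρ e, casimir_eq ρ e, inner_neg_left, inner_neg_right, sum_inner, inner_sum]
  congr 1
  refine Finset.sum_congr rfl fun i _ => ?_
  rw [ρ.skew _ (th_kk L _), ρ.skew _ (th_kk L _), neg_neg]

theorem casimir_nonneg (x : X) : 0 ≤ (⟪x, casimir ρ x⟫_ℂ).re := by
  let e := stdOrthonormalBasis ℝ g
  rw [casimir_eq ρ e, inner_neg_right, inner_sum, ← Finset.sum_neg_distrib, Complex.re_sum]
  refine Finset.sum_nonneg fun i _ => ?_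
  rw [← ρ.skew _ (th_kk L _)]
  exact inner_self_nonneg (𝕜 := ℂ)

theorem casimir_form (B : InvForm ρ) (x y : X) : B.form (casimir ρ x) y = B.form x (casimir ρ y) := by
  let e := stdOrthonormalBasis ℝ g
  rw [casimir_eq ρ e, casimir_eq ρ e, map_neg, map_neg, map_sum, map_sum, LinearMap.neg_apply,
    LinearMap.sum_apply]
  congr 1
  refine Finset.sum_congr rfl fun i _ => ?_
  rw [B.inv, B.inv, neg_neg]

theorem casimir_add (x y : X) : casimir ρ (x + y) = casimir ρ x + casimir ρ y := by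
  rw [← casL_apply, ← casL_apply, ← casL_apply, map_add]

theorem casimir_mem {V : Submodule ℂ X} (hV : KSub ρ V) {x : X} (hx : x ∈ V) :
    casimir ρ x ∈ V := by
  rw [casimir_eq ρ (stdOrthonormalBasis ℝ g)]
  exact V.neg_mem (V.sum_mem fun i _ => hV _ (th_kk L _) _ (hV _ (th_kk L _) _ hx))

/-- the Casimir operator is a scalar on a `k₀`-type -/
theorem casimir_scalar (V : Submodule ℂ X) (hV : KType ρ V) :
    ∃ c : ℝ, ∀ v ∈ V, casimir ρ v = (c : ℂ) • v := by
  have hfin := hV.fin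
  let D : V →ₗ[ℂ] V := (casL ρ).restrict fun x hx => by
    rw [casL_apply]
    exact casimir_mem ρ hV.stable hx
  have hD : ∀ v : V, (D v : X) = casimir ρ v := fun v => casL_apply ρ v
  have hDs : D.IsSymmetric := by
    intro x y
    rw [Submodule.coe_inner, Submodule.coe_inner, hD, hD]
    exact casimir_symm ρ x y
  have hpos : 0 < Module.finrank ℂ V := by
    rw [Nat.pos_iff_ne_zero]
    intro h
    exact hV.ne (Submodule.finrank_eq_zero.1 h)
  let e := hDs.eigenvectorBasis rfl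
  let c := hDs.eigenvalues rfl ⟨0, hpos⟩
  have he : casimir ρ (e ⟨0, hpos⟩) = (c : ℂ) • (e ⟨0, hpos⟩ : X) := by
    rw [← hD]
    exact congrArg (Submodule.subtype V) (hDs.apply_eigenvectorBasis rfl ⟨0, hpos⟩)
  let U : Submodule ℂ X := V ⊓ LinearMap.ker (casL ρ - (c : ℂ) • LinearMap.id)
  have hU : ∀ u, u ∈ U ↔ u ∈ V ∧ casimir ρ u = (c : ℂ) • u := by
    intro u
    rw [Submodule.mem_inf, LinearMap.mem_ker, LinearMap.sub_apply, LinearMap.smul_apply,
      LinearMap.id_apply, sub_eq_zero, casL_apply]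
  have hUs : ∀ Z, L.th Z = Z → ∀ v ∈ U, ρ.op Z v ∈ U := by
    intro Z hZ u hu
    rw [hU] at hu ⊢
    exact ⟨hV.stable Z hZ u hu.1, by rw [casimir_comm ρ hZ, hu.2, map_smul]⟩
  refine ⟨c, fun v hv => ?_⟩
  rcases hV.irr U inf_le_left hUs with h | h
  · exfalso
    have h1 : (e ⟨0, hpos⟩ : X) ∈ U := (hU _).2 ⟨(e ⟨0, hpos⟩).2, he⟩
    rw [h, Submodule.mem_bot] at h1
    have h2 := e.orthonormal.1 ⟨0, hpos⟩
    rw [Submodule.coe_norm, h1, norm_zero] at h2
    exact zero_ne_one h2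
  · rw [← h] at hv
    exact ((hU v).1 hv).2

/-- lower bound of the Casimir operator with respect to a semidefinite form -/
theorem casimir_bound (B : InvForm ρ) (W : Submodule ℂ X) (hW : FiniteDimensional ℂ W)
    (hs : KSub ρ W) (hpsd : ∀ x ∈ W, 0 ≤ (B.form x x).re) (m : ℝ)
    (hm : ∀ V ≤ W, KType ρ V → ∀ c : ℝ, (∀ v ∈ V, casimir ρ v = (c : ℂ) • v) → m ≤ c)
    (x : X) (hx : x ∈ W) : m * (B.form x x).re ≤ (B.form x (casimir ρ x)).re := by
  let Q : X →ₗ⋆[ℂ] X →ₗ[ℂ] ℂ := B.form.compl₂ (casL ρ) - (m : ℂ) • B.form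
  have hQ : ∀ x y, Q x y = B.form x (casimir ρ y) - (m : ℂ) * B.form x y := by
    intro x y
    show (B.form.compl₂ (casL ρ) - (m : ℂ) • B.form) x y = _
    rw [LinearMap.sub_apply, LinearMap.sub_apply, LinearMap.smul_apply, LinearMap.smul_apply,
      LinearMap.compl₂_apply, casL_apply, smul_eq_mul]
  by_contra hcon
  push Not at hcon
  have hstar : star (m : ℂ) = m := Complex.conj_ofReal m
  obtain ⟨V, hVW, hV, hneg⟩ := neg_type ρ W hW hs Q
    (by
      intro x _ y _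
      rw [hQ, hQ, star_sub, star_mul', hstar, ← B.herm, ← casimir_form, ← B.herm])
    (by
      intro Z hZ x _ y _
      rw [hQ, hQ, B.inv, B.inv, casimir_comm ρ hZ]
      ring)
    ⟨x, hx, by
      rw [hQ, Complex.sub_re, Complex.re_ofReal_mul]
      linarith⟩
  obtain ⟨c, hc⟩ := casimir_scalar ρ V hV
  have hmc := hm V hVW hV c hc
  obtain ⟨v, hv, hv0⟩ := (Submodule.ne_bot_iff V).1 hV.ne
  have h1 := hneg v hv hv0
  rw [hQ, hc v hv, map_smul, smul_eq_mul, ← sub_mul, ← Complex.ofReal_sub,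
    Complex.re_ofReal_mul] at h1
  have h2 := hpsd v (hVW hv)
  have h3 := mul_nonneg (sub_nonneg.2 hmc) h2
  linarith

end

end Pool.Agent.Lib.MP_4322ef_al.SR
end

section

/-! Consequences of the irreducibility of `X`. -/

set_option autoImplicit false

open scoped InnerProductSpace

namespace Pool.Agent.Lib.MP_4322ef_al.SR

section
variable {g : Type} [NormedAddCommGroup g] [InnerProductSpace ℝ g] {L : RedLie g}
  {X : Type} [NormedAddCommGroup X] [InnerProductSpace ℂ X] (ρ : HC L X)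

theorem radical (B : InvForm ρ) (x : X) (h : ∀ y, B.form x y = 0) : x = 0 := by
  have h1 := ρ.irr (LinearMap.ker B.form) (by
    intro Z u hu
    rw [LinearMap.mem_ker] at hu ⊢
    ext y
    rw [B.inv, hu, LinearMap.zero_apply, LinearMap.zero_apply, neg_zero])
  rcases h1 with h1 | h1
  · have h2 : x ∈ LinearMap.ker B.form := by
      rw [LinearMap.mem_ker]
      ext y
      exact h y
    rw [h1, Submodule.mem_bot] at h2
    exact h2
  · exfalso
    apply B.ne
    ext u y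
    have h2 : u ∈ LinearMap.ker B.form := by rw [h1]; trivial
    rw [LinearMap.mem_ker] at h2
    rw [h2]
    rfl

/-- a nonzero functional which transforms by a character under `n₀ + a₀` does not vanish on any
`k₀`-stable subspace -/
theorem eps_ne [FiniteDimensional ℝ g] (C : CSub L) (ε : X →ₗ[ℂ] ℂ) (hε : ε ≠ 0) (χ : g → ℂ)
    (hn : ∀ Z ∈ C.n, ∀ x, ε (ρ.op Z x) = 0) (ha : ∀ H ∈ C.a, ∀ x, ε (ρ.op H x) = χ H * ε x)
    (V : Submodule ℂ X) (hV : KSub ρ V) (hne : V ≠ ⊥) : ∃ v ∈ V, ε v ≠ 0 := by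
  by_contra hcon
  push Not at hcon
  let S : Set (Submodule ℂ X) := {U | KSub ρ U ∧ U ≤ LinearMap.ker ε}
  let M : Submodule ℂ X := sSup S
  have hMk : KSub ρ M := by
    intro Z hZ u hu
    have h1 : M ≤ M.comap (ρ.op Z) := by
      refine sSup_le fun U hU u hu => ?_
      exact (le_sSup hU : U ≤ M) (hU.1 Z hZ u hu)
    exact h1 hu
  have hMe : M ≤ LinearMap.ker ε := sSup_le fun U hU => hU.2
  let T : Submodule ℂ X := Submodule.span ℂ {y | ∃ A, ∃ x ∈ M, ρ.op A x = y}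
  have hM' : M ⊔ T ∈ S := by
    constructor
    · intro Z hZ
      have h1 : M ⊔ T ≤ (M ⊔ T).comap (ρ.op Z) := by
        refine sup_le (fun u hu => Submodule.mem_sup_left (hMk Z hZ u hu)) ?_
        refine Submodule.span_le.2 ?_
        rintro _ ⟨A, x, hx, rfl⟩
        rw [SetLike.mem_coe, Submodule.mem_comap]
        have h2 : ρ.op Z (ρ.op A x) = ρ.op A (ρ.op Z x) + ρ.op (L.br Z A) x := by
          rw [ρ.bracket]
          abel
        rw [h2]
        exact Submodule.mem_sup_right (T.add_mem (Submodule.subset_span ⟨A, _, hMk Z hZ x hx, rfl⟩)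
          (Submodule.subset_span ⟨_, x, hx, rfl⟩))
      exact h1
    · refine sup_le hMe (Submodule.span_le.2 ?_)
      rintro _ ⟨A, x, hx, rfl⟩
      rw [SetLike.mem_coe, LinearMap.mem_ker]
      obtain ⟨N, hN, H, hH, Z, hZ, rfl⟩ := iwasawa C A
      have hx0 : ε x = 0 := LinearMap.mem_ker.1 (hMe hx)
      rw [ρ.add, ρ.add, LinearMap.add_apply, LinearMap.add_apply, map_add, map_add, hn N hN,
        ha H hH, hx0, LinearMap.mem_ker.1 (hMe (hMk Z hZ x hx)), mul_zero, add_zero, add_zero]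
  have hMg : ∀ A, ∀ u ∈ M, ρ.op A u ∈ M := by
    intro A u hu
    exact (le_sSup hM' : M ⊔ T ≤ M) (Submodule.mem_sup_right (Submodule.subset_span ⟨A, u, hu, rfl⟩))
  have hVM : V ≤ M := le_sSup ⟨hV, fun v hv => LinearMap.mem_ker.2 (hcon v hv)⟩
  rcases ρ.irr M hMg with h | h
  · rw [h, le_bot_iff] at hVM
    exact hne hVM
  · apply hε
    ext x
    have h1 : x ∈ M := by rw [h]; trivial
    exact LinearMap.mem_ker.1 (hMe h1)

end

end Pool.Agent.Lib.MP_4322ef_al.SR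
end
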