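import Pool.Agent.Lib.MP_4322ef_al.Mg.G001

section

/-! The sum of the `k₀`-types of `X` which occur in a finite dimensional `k₀`-module `D`. -/

set_option autoImplicit false

open scoped InnerProductSpace TensorProduct

namespace Pool.Agent.Lib.MP_4322ef_al.SR

section
variable {g : Type} [NormedAddCommGroup g] [InnerProductSpace ℝ g] {L : RedLie g}
  {X : Type} [NormedAddCommGroup X] [InnerProductSpace ℂ X] (ρ : HC L X)

theorem riesz (W : Submodule ℂ X) (hW : FiniteDimensional ℂ W) (Q : X →ₗ⋆[ℂ] X →ₗ[ℂ] ℂ) :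
    ∃ D : X →ₗ[ℂ] X, (∀ y, D y ∈ W) ∧ ∀ x ∈ W, ∀ y, ⟪x, D y⟫_ℂ = Q x y := by
  let b := stdOrthonormalBasis ℂ W
  let D : X →ₗ[ℂ] X := ∑ i, (Q (b i : X)).smulRight (b i : X)
  have hD : ∀ y, D y = ∑ i, Q (b i : X) y • (b i : X) := by
    intro y
    simp only [D, LinearMap.sum_apply, LinearMap.smulRight_apply]
  refine ⟨D, fun y => ?_, fun x hx y => ?_⟩
  · rw [hD]
    exact W.sum_mem fun i _ => W.smul_mem _ (b i).2
  · have h1 : ∑ i, ⟪(b i : X), x⟫_ℂ • (b i : X) = x := by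
      have h := congrArg (Submodule.subtype W) (b.sum_repr' ⟨x, hx⟩)
      rw [map_sum] at h
      exact h
    rw [hD, inner_sum]
    conv_rhs => rw [← h1]
    rw [map_sum, LinearMap.sum_apply]
    refine Finset.sum_congr rfl fun i _ => ?_
    rw [inner_smul_right, LinearMap.map_smulₛₗ, LinearMap.smul_apply, smul_eq_mul,
      inner_conj_symm, mul_comm]

variable {D : Type} [NormedAddCommGroup D] [InnerProductSpace ℂ D] (κ : g → D →ₗ[ℂ] D)

/-- the sum of the images of the intertwining operators -/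
noncomputable def XD : Submodule ℂ X :=
  LinearMap.range (TensorProduct.lift (KHom L ρ.op κ).subtype)

theorem mem_XD {T : D →ₗ[ℂ] X} (hT : T ∈ KHom L ρ.op κ) (d : D) : T d ∈ XD ρ κ :=
  ⟨(⟨T, hT⟩ : KHom L ρ.op κ) ⊗ₜ[ℂ] d, rfl⟩

theorem XD_le {U : Submodule ℂ X} (h : ∀ T ∈ KHom L ρ.op κ, ∀ d, T d ∈ U) : XD ρ κ ≤ U := by
  rintro _ ⟨t, rfl⟩
  induction t using TensorProduct.induction_on with
  | zero => rw [map_zero]; exact U.zero_mem
  | tmul T d => exact h T.1 T.2 d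
  | add x y hx hy => rw [map_add]; exact U.add_mem hx hy

theorem XD_fin [FiniteDimensional ℂ D] (h : FiniteDimensional ℂ (KHom L ρ.op κ)) :
    FiniteDimensional ℂ (XD ρ κ) := by
  unfold XD
  infer_instance

theorem XD_sub : KSub ρ (XD ρ κ) := by
  intro Z hZ
  have h : XD ρ κ ≤ (XD ρ κ).comap (ρ.op Z) := by
    refine XD_le ρ κ fun T hT d => ?_
    rw [Submodule.mem_comap, hT Z hZ d]
    exact mem_XD ρ κ hT _
  exact h

theorem XD_nondeg (B : InvForm ρ) {x : X} (hx : x ∈ XD ρ κ)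
    (h : ∀ y ∈ XD ρ κ, B.form y x = 0) : x = 0 := by
  apply radical ρ B
  intro x'
  obtain ⟨U, hU, hx', hUs⟩ := ρ.fin x'
  obtain ⟨Φ, hΦ, hΦi⟩ := riesz U hU B.form
  have hcomm : ∀ Z, L.th Z = Z → ∀ y, Φ (ρ.op Z y) = ρ.op Z (Φ y) := by
    intro Z hZ y
    have h1 : Φ (ρ.op Z y) - ρ.op Z (Φ y) ∈ U := U.sub_mem (hΦ _) (hUs Z hZ _ (hΦ _))
    have h2 : ∀ u ∈ U, ⟪u, Φ (ρ.op Z y) - ρ.op Z (Φ y)⟫_ℂ = 0 := by
      intro u hu
      rw [inner_sub_right, hΦi u hu, ← neg_eq_iff_eq_neg.2 (ρ.skew Z hZ u (Φ y)),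
        hΦi _ (hUs Z hZ u hu), B.inv]
      ring
    have h3 := h2 _ h1
    rw [inner_self_eq_zero] at h3
    exact sub_eq_zero.1 h3
  have h1 : XD ρ κ ≤ (XD ρ κ).comap Φ := by
    refine XD_le ρ κ fun T hT d => ?_
    rw [Submodule.mem_comap]
    have h2 : Φ ∘ₗ T ∈ KHom L ρ.op κ := by
      intro Z hZ d
      rw [LinearMap.comp_apply, LinearMap.comp_apply, ← hT Z hZ d, hcomm Z hZ]
    exact mem_XD ρ κ h2 d
  have h2 : Φ x ∈ XD ρ κ := h1 hx
  have h3 : ⟪Φ x, Φ x⟫_ℂ = 0 := by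
    rw [hΦi _ (hΦ x), h _ h2]
  rw [inner_self_eq_zero] at h3
  rw [B.herm x' x, ← hΦi x' hx', h3, inner_zero_right, star_zero]

/-- a form which is positive semidefinite on `XD` is positive definite on `XD` -/
theorem XD_pos (B : InvForm ρ) (hpsd : ∀ x ∈ XD ρ κ, 0 ≤ (B.form x x).re) {x : X}
    (hx : x ∈ XD ρ κ) (hx0 : x ≠ 0) : 0 < (B.form x x).re := by
  refine lt_of_le_of_ne (hpsd x hx) fun h0 => hx0 (XD_nondeg ρ κ B hx fun y hy => ?_)
  set z := B.form y x with hz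
  set b := (B.form y y).re with hb
  have hb0 : 0 ≤ b := hpsd y hy
  have key : ∀ s : ℝ, 0 ≤ -2 * s * ‖z‖ ^ 2 + s ^ 2 * ‖z‖ ^ 2 * b := by
    intro s
    have h1 := hpsd (x - ((s : ℂ) * z) • y) ((XD ρ κ).sub_mem hx ((XD ρ κ).smul_mem _ hy))
    have h2 : B.form (x - ((s : ℂ) * z) • y) (x - ((s : ℂ) * z) • y)
        = B.form x x - ((s : ℂ) * z) * B.form x y - star ((s : ℂ) * z) * B.form y x
          + star ((s : ℂ) * z) * ((s : ℂ) * z) * B.form y y := by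
      rw [map_sub, map_sub, LinearMap.sub_apply, LinearMap.sub_apply, LinearMap.map_smulₛₗ,
        LinearMap.smul_apply, LinearMap.smul_apply, map_smul, map_smul]
      simp only [smul_eq_mul, starRingEnd_apply]
      ring
    have h3 : B.form x y = star z := by rw [hz, B.herm y x]
    have h4 : star ((s : ℂ) * z) = (s : ℂ) * star z := by
      rw [star_mul', Complex.star_def, Complex.conj_ofReal]
    have h5 : z * star z = ((‖z‖ ^ 2 : ℝ) : ℂ) := by
      rw [Complex.star_def, Complex.mul_conj, Complex.normSq_eq_norm_sq]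
    have h6 : B.form (x - ((s : ℂ) * z) • y) (x - ((s : ℂ) * z) • y)
        = B.form x x - ((2 * s * ‖z‖ ^ 2 : ℝ) : ℂ) + ((s ^ 2 * ‖z‖ ^ 2 : ℝ) : ℂ) * B.form y y := by
      rw [h2, h3, h4, ← hz]
      have h7 : (s : ℂ) * z * star z = (s : ℂ) * ((‖z‖ ^ 2 : ℝ) : ℂ) := by
        rw [mul_assoc, h5]
      have h8 : (s : ℂ) * star z * z = (s : ℂ) * ((‖z‖ ^ 2 : ℝ) : ℂ) := by
        rw [mul_assoc, mul_comm (star z) z, h5]
      have h9 : (s : ℂ) * star z * ((s : ℂ) * z) = (s : ℂ) ^ 2 * ((‖z‖ ^ 2 : ℝ) : ℂ) := by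
        rw [← h5]
        ring
      rw [h7, h8, h9]
      push_cast
      ring
    rw [h6, Complex.add_re, Complex.sub_re, Complex.re_ofReal_mul, Complex.ofReal_re, ← h0] at h1
    linarith
  have h1 := key (1 / (b + 1))
  have hb1 : 0 < b + 1 := by linarith
  by_contra hz0
  have hz1 : 0 < ‖z‖ ^ 2 := pow_pos (norm_pos_iff.2 hz0) 2
  have h2 : -2 * (1 / (b + 1)) * ‖z‖ ^ 2 + (1 / (b + 1)) ^ 2 * ‖z‖ ^ 2 * b
      = -(‖z‖ ^ 2 * (b + 2) / (b + 1) ^ 2) := by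
    field_simp
    ring
  rw [h2] at h1
  have h3 : 0 < ‖z‖ ^ 2 * (b + 2) / (b + 1) ^ 2 := by positivity
  linarith

/-- every `k₀`-type in `XD` is a quotient of `D` -/
theorem XD_occurs {V : Submodule ℂ X} (hV : KType ρ V) (hle : V ≤ XD ρ κ) :
    ∃ T ∈ KHom L ρ.op κ, (∀ d, T d ∈ V) ∧ ∃ d, T d ≠ 0 := by
  have hfin := hV.fin
  let P : X →ₗ[ℂ] X := (V.starProjection : X →ₗ[ℂ] X)
  have hPm : ∀ y, P y ∈ V := fun y => V.starProjection_apply_mem y
  have hPs : ∀ v ∈ V, P v = v := fun v hv => Submodule.starProjection_eq_self_iff.2 hv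
  have hcomm : ∀ Z, L.th Z = Z → ∀ y, P (ρ.op Z y) = ρ.op Z (P y) := by
    intro Z hZ y
    refine Submodule.eq_starProjection_of_mem_of_inner_eq_zero (hV.stable Z hZ _ (hPm y)) ?_
    intro w hw
    rw [← map_sub, ρ.skew Z hZ, neg_eq_zero]
    exact Submodule.starProjection_inner_eq_zero _ _ (hV.stable Z hZ w hw)
  by_contra hcon
  push Not at hcon
  have h1 : XD ρ κ ≤ LinearMap.ker P := by
    refine XD_le ρ κ fun T hT d => ?_
    rw [LinearMap.mem_ker]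
    refine hcon (P ∘ₗ T) ?_ (fun d => hPm _) d
    intro Z hZ d
    rw [LinearMap.comp_apply, LinearMap.comp_apply, ← hT Z hZ d, hcomm Z hZ]
  apply hV.ne
  rw [Submodule.eq_bot_iff]
  intro v hv
  rw [← hPs v hv]
  exact LinearMap.mem_ker.1 (h1 (hle hv))

end

end Pool.Agent.Lib.MP_4322ef_al.SR
end

section

/-! The split Casimir operator and the Hermitian form on the intertwining operators. -/

set_option autoImplicit false

open scoped InnerProductSpace TensorProduct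

namespace Pool.Agent.Lib.MP_4322ef_al.SR

section
variable {g : Type} [NormedAddCommGroup g] [InnerProductSpace ℝ g] {L : RedLie g}
  {X : Type} [NormedAddCommGroup X] [InnerProductSpace ℂ X] (ρ : HC L X)
  {D : Type} [NormedAddCommGroup D] [InnerProductSpace ℂ D]

theorem trace_swap (Q : X →ₗ⋆[ℂ] X →ₗ[ℂ] ℂ) {ι : Type} [Fintype ι] (d : OrthonormalBasis ι ℂ D)
    (S T : D →ₗ[ℂ] X) (A A' : D →ₗ[ℂ] D) (h : ∀ x y, ⟪A x, y⟫_ℂ = ⟪x, A' y⟫_ℂ) :
    ∑ j, Q (S (d j)) (T (A (d j))) = ∑ j, Q (S (A' (d j))) (T (d j)) := by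
  have h1 : ∀ j, Q (S (d j)) (T (A (d j))) = ∑ l, ⟪d l, A (d j)⟫_ℂ * Q (S (d j)) (T (d l)) := by
    intro j
    conv_lhs => rw [← d.sum_repr' (A (d j))]
    simp only [map_sum, map_smul, smul_eq_mul]
  have h2 : ∀ j, Q (S (A' (d j))) (T (d j)) = ∑ l, ⟪A' (d j), d l⟫_ℂ * Q (S (d l)) (T (d j)) := by
    intro j
    conv_lhs => rw [← d.sum_repr' (A' (d j))]
    simp only [map_sum, map_smul, LinearMap.sum_apply, LinearMap.map_smulₛₗ, LinearMap.smul_apply,
      smul_eq_mul, inner_conj_symm]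
  simp only [h1, h2]
  rw [Finset.sum_comm]
  refine Finset.sum_congr rfl fun l _ => Finset.sum_congr rfl fun j _ => ?_
  rw [← inner_conj_symm (A' (d l)) (d j), ← h, inner_conj_symm]

/-- the action of `k₀` and of `g` on `D = V₀ ⊗ Y`: `α` on `V₀`, `τ` on `Y` -/
structure DData (L : RedLie g) (D : Type) [NormedAddCommGroup D] [InnerProductSpace ℂ D] where
  α : g → D →ₗ[ℂ] D
  τ : Rep L D
  adj : ∀ A x y, ⟪τ.op A x, y⟫_ℂ = -⟪x, τ.op (L.th A) y⟫_ℂ
  comm : ∀ Z, L.th Z = Z → ∀ A d, α Z (τ.op A d) = τ.op A (α Z d)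

/-- the action of `k₀` on `D` -/
noncomputable def DData.κ (δ : DData L D) (Z : g) : D →ₗ[ℂ] D := δ.α Z + δ.τ.op Z

variable [FiniteDimensional ℝ g] (δ : DData L D)

/-- the split Casimir operator `T ↦ ∑ ρ(e i) T τ(th (e i))` -/
noncomputable def cas (T : D →ₗ[ℂ] X) : D →ₗ[ℂ] X :=
  ∑ i, ρ.op (stdOrthonormalBasis ℝ g i) ∘ₗ T ∘ₗ δ.τ.op (L.th (stdOrthonormalBasis ℝ g i))

theorem cas_apply (T : D →ₗ[ℂ] X) (d : D) : cas ρ δ T d =
    ∑ i, ρ.op (stdOrthonormalBasis ℝ g i) (T (δ.τ.op (L.th (stdOrthonormalBasis ℝ g i)) d)) := by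
  rw [cas, LinearMap.sum_apply]
  rfl

theorem cas_split (T : D →ₗ[ℂ] X) (d : D) : cas ρ δ T d =
    ∑ i, ρ.op (L.kk (stdOrthonormalBasis ℝ g i)) (T (δ.τ.op (L.kk (stdOrthonormalBasis ℝ g i)) d))
    - ∑ i, ρ.op (L.pp (stdOrthonormalBasis ℝ g i))
      (T (δ.τ.op (L.pp (stdOrthonormalBasis ℝ g i)) d)) := by
  let e := stdOrthonormalBasis ℝ g
  let β := bil ρ.toRep δ.τ LinearMap.id T LinearMap.id LinearMap.id d
  have h1 := frame_mul e β LinearMap.id L.th L.th (th_symm L)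
  have h2 := frame_mul e β L.kk L.kk L.kk (kk_symm L)
  have h3 := frame_mul e β L.pp L.pp L.pp (pp_symm L)
  rw [cas_apply]
  have e1 : ∑ i, ρ.op (e i) (T (δ.τ.op (L.th (e i)) d)) =
      ∑ i, β ((LinearMap.id : g →ₗ[ℝ] g) (e i)) (L.th (e i)) := rfl
  have e2 : ∑ i, ρ.op (L.kk (e i)) (T (δ.τ.op (L.kk (e i)) d)) = ∑ i, β (L.kk (e i)) (L.kk (e i)) :=
    rfl
  have e3 : ∑ i, ρ.op (L.pp (e i)) (T (δ.τ.op (L.pp (e i)) d)) = ∑ i, β (L.pp (e i)) (L.pp (e i)) :=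
    rfl
  rw [e1, e2, e3, h1, h2, h3, ← Finset.sum_sub_distrib]
  refine Finset.sum_congr rfl fun i _ => ?_
  rw [← LinearMap.sub_apply, ← map_sub, LinearMap.id_apply, kk_of_k L (th_kk L _),
    pp_of_p L (th_pp L _)]
  congr 2
  rw [kk_apply, pp_apply, ← smul_sub]
  have : e i + L.th (e i) - (e i - L.th (e i)) = (2 : ℝ) • L.th (e i) := by
    rw [two_smul]
    abel
  rw [this, smul_smul]
  norm_num

theorem cas_equiv {T : D →ₗ[ℂ] X} (hT : T ∈ KHom L ρ.op δ.κ) : cas ρ δ T ∈ KHom L ρ.op δ.κ := by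
  intro Z hZ d
  let e := stdOrthonormalBasis ℝ g
  have h := frame_skew e (bil ρ.toRep δ.τ LinearMap.id T LinearMap.id L.th d) (L.br Z)
    (br_k_skew L hZ)
  simp only [bil_apply, LinearMap.id_apply] at h
  rw [cas_apply, cas_apply, map_sum, ← sub_eq_zero, ← Finset.sum_sub_distrib, ← h]
  refine Finset.sum_congr rfl fun i _ => ?_
  have h1 : L.th (L.br Z (e i)) = L.br Z (L.th (e i)) := by rw [L.th_br, hZ]
  have h2 := hT Z hZ (δ.τ.op (L.th (e i)) d)
  have h3 : δ.κ Z (δ.τ.op (L.th (e i)) d) = δ.τ.op (L.th (e i)) (δ.κ Z d)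
      + δ.τ.op (L.br Z (L.th (e i))) d := by
    rw [δ.τ.bracket, DData.κ, LinearMap.add_apply, LinearMap.add_apply, map_add, δ.comm Z hZ]
    abel
  rw [h3, map_add] at h2
  rw [h1, ρ.bracket, h2, map_add]
  abel

theorem cas_eval (C : CSub L) {h : g} (hh : h ∈ C.a) (ε : X →ₗ[ℂ] ℂ) (χ : g → ℂ)
    (hn : ∀ Z ∈ C.n, ∀ x, ε (ρ.op Z x) = 0) (ha : ∀ H ∈ C.a, ∀ x, ε (ρ.op H x) = χ H * ε x)
    (d₁ : D) (h1 : ∀ Z ∈ C.n, δ.τ.op Z d₁ = 0)
    (h2 : ∀ H ∈ C.a, δ.τ.op H d₁ = (⟪h, H⟫_ℝ : ℂ) • d₁)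
    (h3 : ∀ Z, L.th Z = Z → L.br C.H₀ Z = 0 → δ.τ.op Z d₁ = 0) (T : D →ₗ[ℂ] X) :
    ε (cas ρ δ T d₁) = -χ h * ε (T d₁) := by
  let e := stdOrthonormalBasis ℝ g
  let γ : g →ₗ[ℝ] ℂ :=
    { toFun := fun A => ε (ρ.op A (T d₁))
      map_add' := fun A B => by rw [ρ.add, LinearMap.add_apply, map_add]
      map_smul' := fun r A => by
        rw [ρ.smul, LinearMap.smul_apply, map_smul, Complex.coe_smul, RingHom.id_apply] }
  have hE := eval_split C hh (bil ρ.toRep δ.τ ε T LinearMap.id L.th d₁) γ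
    (fun A hA B => hn A hA _)
    (fun A B hB => by
      rw [bil_apply, h1 _ hB, map_zero, map_zero, map_zero])
    (fun A Z hZ hZ' => by
      rw [bil_apply, hZ, h3 Z hZ hZ', map_zero, map_zero, map_zero])
    (fun A H hH => by
      rw [bil_apply, C.a_p H hH, Rep.neg', LinearMap.neg_apply, h2 H hH, map_neg, map_smul,
        map_neg, map_smul, map_neg, map_smul, smul_eq_mul, neg_mul]
      rfl) e
  rw [cas_apply, map_sum, neg_mul, ← ha h hh]
  exact hE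

omit [FiniteDimensional ℝ g] in
theorem form_pp (B : InvForm ρ) {ι : Type} [Fintype ι] (d : OrthonormalBasis ι ℂ D)
    (T : D →ₗ[ℂ] X) {P : g} (hP : L.th P = -P) :
    (∑ j, B.form (T (d j)) (ρ.op P (T (δ.τ.op P (d j))))).re = 0 := by
  have h1 : ∀ x y, ⟪δ.τ.op P x, y⟫_ℂ = ⟪x, δ.τ.op P y⟫_ℂ := by
    intro x y
    rw [δ.adj, hP, Rep.neg', LinearMap.neg_apply, inner_neg_right, neg_neg]
  have h2 : ∑ j, B.form (T (d j)) (ρ.op P (T (δ.τ.op P (d j))))
      = -star (∑ j, B.form (T (d j)) (ρ.op P (T (δ.τ.op P (d j))))) := by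
    have h3 := trace_swap B.form d (ρ.op P ∘ₗ T) T (δ.τ.op P) (δ.τ.op P) h1
    simp only [LinearMap.comp_apply] at h3
    have h4 : ∑ j, B.form (T (d j)) (ρ.op P (T (δ.τ.op P (d j))))
        = -∑ j, B.form (ρ.op P (T (d j))) (T (δ.τ.op P (d j))) := by
      rw [← Finset.sum_neg_distrib]
      refine Finset.sum_congr rfl fun j _ => ?_
      rw [B.inv, neg_neg]
    rw [star_sum, h4, h3]
    congr 1
    refine Finset.sum_congr rfl fun j _ => ?_
    rw [B.herm]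
  have h5 := congrArg Complex.re h2
  rw [Complex.neg_re, Complex.star_def, Complex.conj_re] at h5
  linarith

theorem form_kk (B : InvForm ρ) {ι : Type} [Fintype ι] (d : OrthonormalBasis ι ℂ D)
    (c₀ : ℝ) (hc : ∀ x, ∑ i, δ.α (L.kk (stdOrthonormalBasis ℝ g i))
      (δ.α (L.kk (stdOrthonormalBasis ℝ g i)) x) = -((c₀ : ℂ) • x))
    {T : D →ₗ[ℂ] X} (hT : T ∈ KHom L ρ.op δ.κ) :
    (∑ j, B.form (T (d j)) (∑ i, ρ.op (L.kk (stdOrthonormalBasis ℝ g i))
      (T (δ.τ.op (L.kk (stdOrthonormalBasis ℝ g i)) (d j))))).re =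
    (1 / 2) * (-(∑ j, (B.form (T (d j)) (casimir ρ (T (d j)))).re)
      + c₀ * ∑ j, (B.form (T (d j)) (T (d j))).re
      - ∑ i, ∑ j, (B.form (T (δ.τ.op (L.kk (stdOrthonormalBasis ℝ g i)) (d j)))
        (T (δ.τ.op (L.kk (stdOrthonormalBasis ℝ g i)) (d j)))).re) := by
  let e := stdOrthonormalBasis ℝ g
  have h1 : ∀ x, ∑ i, ρ.op (L.kk (e i)) (T (δ.τ.op (L.kk (e i)) x)) =
      (1 / 2 : ℂ) • (-casimir ρ (T x) + (c₀ : ℂ) • T x
        + ∑ i, T (δ.τ.op (L.kk (e i)) (δ.τ.op (L.kk (e i)) x))) := by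
    intro x
    have h2 : ∀ i, ρ.op (L.kk (e i)) (T (δ.τ.op (L.kk (e i)) x)) = (1 / 2 : ℂ) •
        (ρ.op (L.kk (e i)) (ρ.op (L.kk (e i)) (T x)) - T (δ.α (L.kk (e i)) (δ.α (L.kk (e i)) x))
          + T (δ.τ.op (L.kk (e i)) (δ.τ.op (L.kk (e i)) x))) := by
      intro i
      rw [hT _ (th_kk L _), hT _ (th_kk L _), hT _ (th_kk L _)]
      simp only [DData.κ, LinearMap.add_apply, map_add]
      rw [δ.comm _ (th_kk L _)]
      module
    rw [Finset.sum_congr rfl fun i _ => h2 i, ← Finset.smul_sum, Finset.sum_add_distrib,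
      Finset.sum_sub_distrib, casimir_eq ρ e, neg_neg, ← map_sum T, hc x, map_neg, map_smul,
      sub_neg_eq_add]
  have h3 : ∀ i, ∑ j, B.form (T (d j)) (T (δ.τ.op (L.kk (e i)) (δ.τ.op (L.kk (e i)) (d j)))) =
      -∑ j, B.form (T (δ.τ.op (L.kk (e i)) (d j))) (T (δ.τ.op (L.kk (e i)) (d j))) := by
    intro i
    have h4 := trace_swap B.form d T (T ∘ₗ δ.τ.op (L.kk (e i))) (δ.τ.op (L.kk (e i)))
      (-δ.τ.op (L.kk (e i))) (by
        intro x y
        rw [δ.adj, th_kk, LinearMap.neg_apply, inner_neg_right])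
    simp only [LinearMap.comp_apply, LinearMap.neg_apply, map_neg] at h4
    rw [h4, Finset.sum_neg_distrib]
  have h5 : ∑ j, B.form (T (d j)) (∑ i, ρ.op (L.kk (e i)) (T (δ.τ.op (L.kk (e i)) (d j)))) =
      ((1 / 2 : ℝ) : ℂ) * (-∑ j, B.form (T (d j)) (casimir ρ (T (d j)))
        + (c₀ : ℂ) * ∑ j, B.form (T (d j)) (T (d j))
        - ∑ i, ∑ j, B.form (T (δ.τ.op (L.kk (e i)) (d j))) (T (δ.τ.op (L.kk (e i)) (d j)))) := by
    simp only [h1, map_smul, map_add, map_neg, map_sum, smul_eq_mul, ← Finset.mul_sum,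
      Finset.sum_add_distrib, Finset.sum_neg_distrib]
    rw [Finset.sum_comm, Finset.sum_congr rfl fun i _ => h3 i, Finset.sum_neg_distrib]
    push_cast
    ring
  rw [h5, Complex.re_ofReal_mul, Complex.sub_re, Complex.add_re, Complex.neg_re,
    Complex.re_ofReal_mul, Complex.re_sum, Complex.re_sum, Complex.re_sum]
  simp only [Complex.re_sum]
  rfl

end

end Pool.Agent.Lib.MP_4322ef_al.SR
end

section

/-! The main inequality for a semidefinite form. -/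

set_option autoImplicit false

open scoped InnerProductSpace TensorProduct

namespace Pool.Agent.Lib.MP_4322ef_al.SR

section
variable {g : Type} [NormedAddCommGroup g] [InnerProductSpace ℝ g] {L : RedLie g}
  {X : Type} [NormedAddCommGroup X] [InnerProductSpace ℂ X] (ρ : HC L X)
  {D : Type} [NormedAddCommGroup D] [InnerProductSpace ℂ D] [FiniteDimensional ℝ g] (δ : DData L D)

/-- the split Casimir operator on the space of intertwining operators -/
noncomputable def casE : KHom L ρ.op δ.κ →ₗ[ℂ] KHom L ρ.op δ.κ where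
  toFun T := ⟨cas ρ δ T.1, cas_equiv ρ δ T.2⟩
  map_add' S T := by
    apply Subtype.ext
    ext d
    simp only [Submodule.coe_add, LinearMap.add_apply, cas_apply, map_add, Finset.sum_add_distrib]
  map_smul' c T := by
    apply Subtype.ext
    ext d
    simp only [Submodule.coe_smul, LinearMap.smul_apply, cas_apply, map_smul, Finset.smul_sum,
      RingHom.id_apply]

theorem exists_eigen_of_functional {E : Type} [AddCommGroup E] [Module ℂ E]
    [FiniteDimensional ℂ E] (F : E →ₗ[ℂ] E) (φ : E →ₗ[ℂ] ℂ) (c : ℂ) (h : ∀ x, φ (F x) = c * φ x)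
    (x₁ : E) (h1 : φ x₁ ≠ 0) : ∃ x, x ≠ 0 ∧ F x = c • x := by
  have h2 : ¬ Function.Surjective (F - c • (LinearMap.id : E →ₗ[ℂ] E)) := by
    intro hs
    obtain ⟨y, hy⟩ := hs x₁
    apply h1
    rw [← hy, LinearMap.sub_apply, LinearMap.smul_apply, LinearMap.id_apply, map_sub, h, map_smul,
      smul_eq_mul, sub_self]
  rw [← LinearMap.injective_iff_surjective, injective_iff_map_eq_zero] at h2
  push Not at h2
  obtain ⟨x, hx, hx0⟩ := h2
  refine ⟨x, hx0, ?_⟩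
  rw [LinearMap.sub_apply, LinearMap.smul_apply, LinearMap.id_apply, sub_eq_zero] at hx
  exact hx

omit [FiniteDimensional ℝ g] in
theorem form_real (B : InvForm ρ) (x : X) : B.form x x = ((B.form x x).re : ℂ) := by
  have h := B.herm x x
  rw [Complex.star_def] at h
  exact (Complex.conj_eq_iff_re.1 h.symm).symm

theorem core [FiniteDimensional ℂ D] (C : CSub L) (B : InvForm ρ)
    (hE : FiniteDimensional ℂ (KHom L ρ.op δ.κ)) (c₀ s : ℝ)
    (hc : ∀ x, ∑ i, δ.α (L.kk (stdOrthonormalBasis ℝ g i))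
      (δ.α (L.kk (stdOrthonormalBasis ℝ g i)) x) = -((c₀ : ℂ) • x))
    (hs : ∀ V ≤ XD ρ δ.κ, KType ρ V → ∀ c : ℝ, (∀ v ∈ V, casimir ρ v = (c : ℂ) • v) →
      c₀ - 2 * s ≤ c)
    {h : g} (hh : h ∈ C.a) (ε : X →ₗ[ℂ] ℂ) (χ : g → ℂ)
    (hn : ∀ Z ∈ C.n, ∀ x, ε (ρ.op Z x) = 0) (ha : ∀ H ∈ C.a, ∀ x, ε (ρ.op H x) = χ H * ε x)
    (d₁ : D) (h1 : ∀ Z ∈ C.n, δ.τ.op Z d₁ = 0)
    (h2 : ∀ H ∈ C.a, δ.τ.op H d₁ = (⟪h, H⟫_ℝ : ℂ) • d₁)
    (h3 : ∀ Z, L.th Z = Z → L.br C.H₀ Z = 0 → δ.τ.op Z d₁ = 0)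
    (T₁ : D →ₗ[ℂ] X) (hT₁ : T₁ ∈ KHom L ρ.op δ.κ) (hne : ε (T₁ d₁) ≠ 0)
    (hχ : s < (-χ h).re) (hpsd : ∀ x ∈ XD ρ δ.κ, 0 ≤ (B.form x x).re) : False := by
  let φ : KHom L ρ.op δ.κ →ₗ[ℂ] ℂ :=
    { toFun := fun T => ε (T.1 d₁)
      map_add' := fun S T => by
        rw [Submodule.coe_add, LinearMap.add_apply, map_add]
      map_smul' := fun c T => by
        rw [Submodule.coe_smul, LinearMap.smul_apply, map_smul, RingHom.id_apply] }
  obtain ⟨⟨T, hT⟩, hT0, hTe⟩ := exists_eigen_of_functional (casE ρ δ) φ (-χ h)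
    (fun T => cas_eval ρ δ C hh ε χ hn ha d₁ h1 h2 h3 T.1) ⟨T₁, hT₁⟩ hne
  have hTe' : cas ρ δ T = (-χ h) • T := congrArg Subtype.val hTe
  have hT0' : T ≠ 0 := fun h => hT0 (Subtype.ext h)
  let d := stdOrthonormalBasis ℂ D
  let N : ℝ := ∑ j, (B.form (T (d j)) (T (d j))).re
  have hNpos : 0 < N := by
    have h4 : ∃ j, T (d j) ≠ 0 := by
      by_contra hcon
      push Not at hcon
      apply hT0'
      refine d.toBasis.ext fun j => ?_
      rw [d.coe_toBasis, hcon j, LinearMap.zero_apply]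
    obtain ⟨j, hj⟩ := h4
    exact Finset.sum_pos' (fun j _ => hpsd _ (mem_XD ρ _ hT _))
      ⟨j, Finset.mem_univ j, XD_pos ρ _ B hpsd (mem_XD ρ _ hT _) hj⟩
  have h5 : (∑ j, B.form (T (d j)) (cas ρ δ T (d j))).re = (-χ h).re * N := by
    have h6 : ∑ j, B.form (T (d j)) (cas ρ δ T (d j)) = (-χ h) * ((N : ℝ) : ℂ) := by
      rw [Complex.ofReal_sum, Finset.mul_sum]
      refine Finset.sum_congr rfl fun j _ => ?_
      rw [hTe', LinearMap.smul_apply, map_smul, smul_eq_mul, ← form_real]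
    rw [h6, Complex.re_mul_ofReal]
  have h7 : (∑ j, B.form (T (d j)) (cas ρ δ T (d j))).re =
      (∑ j, B.form (T (d j)) (∑ i, ρ.op (L.kk (stdOrthonormalBasis ℝ g i))
      (T (δ.τ.op (L.kk (stdOrthonormalBasis ℝ g i)) (d j))))).re := by
    have h8 : ∑ j, B.form (T (d j)) (cas ρ δ T (d j)) =
        ∑ j, B.form (T (d j)) (∑ i, ρ.op (L.kk (stdOrthonormalBasis ℝ g i))
          (T (δ.τ.op (L.kk (stdOrthonormalBasis ℝ g i)) (d j))))
        - ∑ i, ∑ j, B.form (T (d j)) (ρ.op (L.pp (stdOrthonormalBasis ℝ g i))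
          (T (δ.τ.op (L.pp (stdOrthonormalBasis ℝ g i)) (d j)))) := by
      rw [Finset.sum_comm (γ := Fin _), ← Finset.sum_sub_distrib]
      refine Finset.sum_congr rfl fun j _ => ?_
      rw [cas_split, map_sub, map_sum (B.form (T (d j))) (fun i =>
        ρ.op (L.pp (stdOrthonormalBasis ℝ g i)) (T (δ.τ.op (L.pp (stdOrthonormalBasis ℝ g i))
          (d j))))]
    rw [h8, Complex.sub_re, Complex.re_sum (f := fun i => ∑ j, B.form (T (d j))
      (ρ.op (L.pp (stdOrthonormalBasis ℝ g i))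
          (T (δ.τ.op (L.pp (stdOrthonormalBasis ℝ g i)) (d j)))))]
    rw [Finset.sum_eq_zero fun i _ => form_pp ρ δ B d T (th_pp L _), sub_zero]
  rw [h5, form_kk ρ δ B d c₀ hc hT] at h7
  have h9 : (c₀ - 2 * s) * N ≤ ∑ j, (B.form (T (d j)) (casimir ρ (T (d j)))).re := by
    rw [Finset.mul_sum]
    refine Finset.sum_le_sum fun j _ => ?_
    exact casimir_bound ρ B (XD ρ δ.κ) (XD_fin ρ _ hE) (XD_sub ρ _) hpsd _ hs _ (mem_XD ρ _ hT _)
  have h10 : 0 ≤ ∑ i, ∑ j, (B.form (T (δ.τ.op (L.kk (stdOrthonormalBasis ℝ g i)) (d j)))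
        (T (δ.τ.op (L.kk (stdOrthonormalBasis ℝ g i)) (d j)))).re :=
    Finset.sum_nonneg fun i _ => Finset.sum_nonneg fun j _ => hpsd _ (mem_XD ρ _ hT _)
  have h11 : (∑ j, (B.form (T (d j)) (T (d j))).re) = N := rfl
  rw [h11] at h7
  have h12 : s * N < (-χ h).re * N := mul_lt_mul_of_pos_right hχ hNpos
  linarith

/-- negated form -/
def InvForm.negF {ρ : HC L X} (B : InvForm ρ) : InvForm ρ where
  form := -B.form
  herm x y := by
    rw [LinearMap.neg_apply, LinearMap.neg_apply, LinearMap.neg_apply, LinearMap.neg_apply,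
      star_neg, B.herm]
  inv Z x y := by
    rw [LinearMap.neg_apply, LinearMap.neg_apply, LinearMap.neg_apply, LinearMap.neg_apply, B.inv]
  ne := neg_ne_zero.2 B.ne

theorem core_types [FiniteDimensional ℂ D] (C : CSub L) (B : InvForm ρ)
    (hE : FiniteDimensional ℂ (KHom L ρ.op δ.κ)) (c₀ s : ℝ)
    (hc : ∀ x, ∑ i, δ.α (L.kk (stdOrthonormalBasis ℝ g i))
      (δ.α (L.kk (stdOrthonormalBasis ℝ g i)) x) = -((c₀ : ℂ) • x))
    (hs : ∀ V ≤ XD ρ δ.κ, KType ρ V → ∀ c : ℝ, (∀ v ∈ V, casimir ρ v = (c : ℂ) • v) →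
      c₀ - 2 * s ≤ c)
    {h : g} (hh : h ∈ C.a) (ε : X →ₗ[ℂ] ℂ) (χ : g → ℂ)
    (hn : ∀ Z ∈ C.n, ∀ x, ε (ρ.op Z x) = 0) (ha : ∀ H ∈ C.a, ∀ x, ε (ρ.op H x) = χ H * ε x)
    (d₁ : D) (h1 : ∀ Z ∈ C.n, δ.τ.op Z d₁ = 0)
    (h2 : ∀ H ∈ C.a, δ.τ.op H d₁ = (⟪h, H⟫_ℝ : ℂ) • d₁)
    (h3 : ∀ Z, L.th Z = Z → L.br C.H₀ Z = 0 → δ.τ.op Z d₁ = 0)
    (T₁ : D →ₗ[ℂ] X) (hT₁ : T₁ ∈ KHom L ρ.op δ.κ) (hne : ε (T₁ d₁) ≠ 0)
    (hχ : s < (-χ h).re) : ∃ V₁ V₂ : Submodule ℂ X, V₁ ≤ XD ρ δ.κ ∧ V₂ ≤ XD ρ δ.κ ∧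
      KType ρ V₁ ∧ KType ρ V₂ ∧ (∀ v ∈ V₁, v ≠ 0 → 0 < (B.form v v).re) ∧
      ∀ v ∈ V₂, v ≠ 0 → (B.form v v).re < 0 := by
  have key : ∀ B : InvForm ρ, ∃ V ≤ XD ρ δ.κ, KType ρ V ∧ ∀ v ∈ V, v ≠ 0 → (B.form v v).re < 0 := by
    intro B
    have h4 : ∃ x ∈ XD ρ δ.κ, (B.form x x).re < 0 := by
      by_contra hcon
      push Not at hcon
      exact core ρ δ C B hE c₀ s hc hs hh ε χ hn ha d₁ h1 h2 h3 T₁ hT₁ hne hχ hcon
    exact neg_type ρ _ (XD_fin ρ _ hE) (XD_sub ρ _) B.form (fun x _ y _ => B.herm x y)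
      (fun Z _ x _ y _ => B.inv Z x y) h4
  obtain ⟨V₂, hV₂, hK₂, hn₂⟩ := key B
  obtain ⟨V₁, hV₁, hK₁, hn₁⟩ := key B.negF
  refine ⟨V₁, V₂, hV₁, hV₂, hK₁, hK₂, fun v hv hv0 => ?_, hn₂⟩
  have h5 := hn₁ v hv hv0
  have h6 : B.negF.form v v = -B.form v v := rfl
  rw [h6, Complex.neg_re] at h5
  linarith

end

end Pool.Agent.Lib.MP_4322ef_al.SR
end

section

/-! The tensor product `V ⊗ Y`. -/

set_option autoImplicit false

open scoped InnerProductSpace TensorProduct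

namespace Pool.Agent.Lib.MP_4322ef_al.SR

section
variable {g : Type} [NormedAddCommGroup g] [InnerProductSpace ℝ g] {L : RedLie g}
  {X : Type} [NormedAddCommGroup X] [InnerProductSpace ℂ X] (ρ : HC L X)
  {Y : Type} [NormedAddCommGroup Y] [InnerProductSpace ℂ Y] (σ : Rep L Y)
  {V : Type} [NormedAddCommGroup V] [InnerProductSpace ℂ V]

/-- `V` with the operators `r` is a `k₀`-submodule of `X` via `i` -/
structure SubK (r : g → V →ₗ[ℂ] V) (i : V →ₗ[ℂ] X) : Prop where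
  eq : ∀ Z, L.th Z = Z → ∀ v, i (r Z v) = ρ.op Z (i v)
  isom : ∀ v w, ⟪i v, i w⟫_ℂ = ⟪v, w⟫_ℂ

variable {ρ} {r : g → V →ₗ[ℂ] V} {i : V →ₗ[ℂ] X} (hr : SubK ρ r i)
include hr

theorem SubK.inj {v w : V} (h : i v = i w) : v = w := by
  have h1 : ⟪v - w, v - w⟫_ℂ = 0 := by
    rw [← hr.isom, map_sub, h, sub_self, inner_zero_left]
  rw [inner_self_eq_zero] at h1
  exact sub_eq_zero.1 h1

theorem SubK.skew {Z : g} (hZ : L.th Z = Z) (v w : V) : ⟪r Z v, w⟫_ℂ = -⟪v, r Z w⟫_ℂ := by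
  rw [← hr.isom, hr.eq Z hZ, ρ.skew Z hZ, ← hr.eq Z hZ, hr.isom]

omit hr

/-- `g` acts on the second factor -/
noncomputable def tauRep (V : Type) [NormedAddCommGroup V] [InnerProductSpace ℂ V] :
    Rep L (V ⊗[ℂ] Y) where
  op A := (σ.op A).lTensor V
  add A B := by rw [σ.add, LinearMap.lTensor_add]
  smul c A := by rw [σ.smul, LinearMap.lTensor_smul]
  bracket A B x := by
    have h : σ.op (L.br A B) = σ.op A ∘ₗ σ.op B - σ.op B ∘ₗ σ.op A := by
      ext y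
      rw [σ.bracket]
      rfl
    rw [h, LinearMap.lTensor_sub, LinearMap.lTensor_comp, LinearMap.lTensor_comp]
    rfl

/-- the data on `V ⊗ Y` -/
noncomputable def tData (r : g → V →ₗ[ℂ] V)
    (hσ : ∀ A y y', ⟪σ.op A y, y'⟫_ℂ = -⟪y, σ.op (L.th A) y'⟫_ℂ) :
    DData L (V ⊗[ℂ] Y) where
  α Z := (r Z).rTensor Y
  τ := tauRep σ V
  adj A x y := by
    induction x using TensorProduct.induction_on with
    | zero => rw [map_zero, inner_zero_left, inner_zero_left, neg_zero]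
    | add x x' hx hx' => rw [map_add, inner_add_left, inner_add_left, hx, hx']; ring
    | tmul v u =>
      induction y using TensorProduct.induction_on with
      | zero => rw [map_zero, inner_zero_right, inner_zero_right, neg_zero]
      | add y y' hy hy' => rw [map_add, inner_add_right, inner_add_right, hy, hy']; ring
      | tmul v' u' =>
        show ⟪v ⊗ₜ[ℂ] σ.op A u, v' ⊗ₜ[ℂ] u'⟫_ℂ = -⟪v ⊗ₜ[ℂ] u, v' ⊗ₜ[ℂ] σ.op (L.th A) u'⟫_ℂ
        rw [TensorProduct.inner_tmul, TensorProduct.inner_tmul, hσ, mul_neg]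
  comm Z hZ A d := by
    induction d using TensorProduct.induction_on with
    | zero => simp only [map_zero]
    | add x y hx hy => simp only [map_add, hx, hy]
    | tmul v u => rfl

variable (hσ : ∀ A y y', ⟪σ.op A y, y'⟫_ℂ = -⟪y, σ.op (L.th A) y'⟫_ℂ)

theorem kap_tmul (Z : g) (v : V) (y : Y) :
    (tData σ r hσ).κ Z (v ⊗ₜ[ℂ] y) = (r Z v) ⊗ₜ[ℂ] y + v ⊗ₜ[ℂ] (σ.op Z y) := rfl

include hr in
/-- `V ⊗ Y` as a unitary representation of `k₀` -/
noncomputable def tKRep : KRep L (V ⊗[ℂ] Y) where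
  op := (tData σ r hσ).κ
  add A B hA hB := by
    apply TensorProduct.ext'
    intro v y
    have hAB : L.th (A + B) = A + B := by rw [map_add, hA, hB]
    have h1 : r (A + B) v = r A v + r B v := by
      apply hr.inj
      rw [map_add, hr.eq _ hAB, hr.eq _ hA, hr.eq _ hB, ρ.add]
      rfl
    rw [LinearMap.add_apply, kap_tmul, kap_tmul, kap_tmul, h1, σ.add, LinearMap.add_apply,
      TensorProduct.add_tmul, TensorProduct.tmul_add]
    abel
  smul c A hA := by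
    apply TensorProduct.ext'
    intro v y
    have hrA : L.th (c • A) = c • A := by rw [map_smul, hA]
    have h1 : r (c • A) v = (c : ℂ) • r A v := by
      apply hr.inj
      rw [map_smul, hr.eq _ hrA, hr.eq _ hA, ρ.smul]
      rfl
    rw [LinearMap.smul_apply, kap_tmul, kap_tmul, h1, σ.smul, LinearMap.smul_apply,
      TensorProduct.tmul_smul, smul_add]
    rfl
  bracket A B hA hB x := by
    have hAB : L.th (L.br A B) = L.br A B := by rw [L.th_br, hA, hB]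
    induction x using TensorProduct.induction_on with
    | zero => simp only [map_zero, sub_zero]
    | add x y hx hy => simp only [map_add, hx, hy]; abel
    | tmul v y =>
      have h1 : r (L.br A B) v = r A (r B v) - r B (r A v) := by
        apply hr.inj
        rw [map_sub, hr.eq _ hAB, hr.eq _ hA, hr.eq _ hB, hr.eq _ hB, hr.eq _ hA, ρ.bracket]
      rw [kap_tmul, kap_tmul, kap_tmul, map_add, map_add, kap_tmul, kap_tmul, kap_tmul, kap_tmul,
        h1, σ.bracket, TensorProduct.sub_tmul, TensorProduct.tmul_sub]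
      abel
  skew Z hZ x y := by
    induction x using TensorProduct.induction_on with
    | zero => rw [map_zero, inner_zero_left, inner_zero_left, neg_zero]
    | add x x' hx hx' => rw [map_add, inner_add_left, inner_add_left, hx, hx']; ring
    | tmul v u =>
      induction y using TensorProduct.induction_on with
      | zero => rw [map_zero, inner_zero_right, inner_zero_right, neg_zero]
      | add y y' hy hy' => rw [map_add, inner_add_right, inner_add_right, hy, hy']; ring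
      | tmul v' u' =>
        rw [kap_tmul, kap_tmul, inner_add_left, inner_add_right, TensorProduct.inner_tmul,
          TensorProduct.inner_tmul, TensorProduct.inner_tmul, TensorProduct.inner_tmul,
          hr.skew hZ, hσ, hZ]
        ring

include hr in
theorem tdata_alpha [FiniteDimensional ℝ g] (c₀ : ℝ)
    (hc : ∀ v, casimir ρ (i v) = (c₀ : ℂ) • i v) (x : V ⊗[ℂ] Y) :
    ∑ j, (tData σ r hσ).α (L.kk (stdOrthonormalBasis ℝ g j))
      ((tData σ r hσ).α (L.kk (stdOrthonormalBasis ℝ g j)) x) = -((c₀ : ℂ) • x) := by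
  induction x using TensorProduct.induction_on with
  | zero => simp only [map_zero, Finset.sum_const_zero, smul_zero, neg_zero]
  | add x y hx hy => simp only [map_add, Finset.sum_add_distrib, hx, hy, smul_add, neg_add]
  | tmul v y =>
    have h1 : ∑ j, r (L.kk (stdOrthonormalBasis ℝ g j))
        (r (L.kk (stdOrthonormalBasis ℝ g j)) v) = -((c₀ : ℂ) • v) := by
      apply hr.inj
      rw [map_neg, map_smul, ← hc v, casimir_eq ρ (stdOrthonormalBasis ℝ g), neg_neg, map_sum]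
      refine Finset.sum_congr rfl fun j _ => ?_
      rw [hr.eq _ (th_kk L _), hr.eq _ (th_kk L _)]
    have h2 : ∀ j, (tData σ r hσ).α (L.kk (stdOrthonormalBasis ℝ g j))
        ((tData σ r hσ).α (L.kk (stdOrthonormalBasis ℝ g j)) (v ⊗ₜ[ℂ] y)) =
        (r (L.kk (stdOrthonormalBasis ℝ g j))
          (r (L.kk (stdOrthonormalBasis ℝ g j)) v)) ⊗ₜ[ℂ] y := fun j => rfl
    rw [Finset.sum_congr rfl fun j _ => h2 j, ← TensorProduct.sum_tmul, h1,
      TensorProduct.neg_tmul]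
    rfl

end

end Pool.Agent.Lib.MP_4322ef_al.SR
end
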